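import Mathlib
import Pool.Agent.Helper16.WindowB
import Pool.Agent.Helper16.Count

open Real Filter

namespace Pool.Agent.Results.MP_edbc81_nt.AlmostAll

open Pool.Agent.Helper16

/-- For every `ε` in `(0,1]`, the number of `n ≤ X` such that the distance from `e ^ n` to the
nearest integer is at most `e ^ (-ε n)` is `O(X ^ (1 - ε ^ 2 / 72))`. -/
theorem result : ∀ ε : ℝ, 0 < ε → ε ≤ 1 → ∃ C : ℝ, ∀ X : ℕ, 1 ≤ X →
    (({n : ℕ | 1 ≤ n ∧ n ≤ X ∧
      |Real.exp (n : ℝ) - (round (Real.exp (n : ℝ)) : ℝ)| ≤ Real.exp (-(ε * n))}.ncard : ℕ) : ℝ) ≤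
        C * (X : ℝ) ^ (1 - ε ^ 2 / 72) := by
  intro ε hε hε1
  set K : ℕ := ⌈3 / ε⌉₊ + 1 with hK
  have hKge : 3 / ε + 1 ≤ K := by
    have := Nat.le_ceil (3 / ε)
    rw [hK]; push_cast; linarith
  have hKle : (K : ℝ) < 3 / ε + 2 := by
    have := Nat.ceil_lt_add_one (show 0 ≤ 3 / ε by positivity)
    rw [hK]; push_cast; linarith
  have h3ε : 3 ≤ 3 / ε := by
    rw [le_div_iff₀ hε]; linarith
  set κ : ℝ := 1 / (2 * ((K : ℝ) + 1) ^ 2) with hκdef
  have hK1 : (0 : ℝ) < (K : ℝ) + 1 := by positivity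
  have hκ0 : 0 < κ := by positivity
  have hκ1 : κ < 1 := by
    rw [hκdef, div_lt_one (by positivity)]
    nlinarith
  have hκK : ((K : ℝ) + 1) ^ 2 * κ = 1 / 2 := by
    rw [hκdef]; field_simp
  have hκK2 : (K : ℝ) * (K + 1) * κ < 1 / 2 := by
    rw [← hκK]
    have : (K : ℝ) * (K + 1) < (K + 1) ^ 2 := by nlinarith
    exact mul_lt_mul_of_pos_right this hκ0
  have hεK : 3 < (K - 1 / 2) * ε := by
    have : 3 / ε < K - 1 / 2 := by linarith
    rwa [div_lt_iff₀ hε] at this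
  obtain ⟨n0, hn0⟩ := window_small K κ (ε / 3) ε (by positivity) hκ0 hκ1 hε.le
    (by rw [hκK]; linarith) (by rw [hκK]; linarith)
    (by nlinarith)
  obtain ⟨C, hC, hcount⟩ := count_bound (fun n => dst n ≤ exp (-(ε * n))) K κ hκ0 hκ1 n0 hn0
  refine ⟨C, fun X hX => ?_⟩
  classical
  have hset : {n : ℕ | 1 ≤ n ∧ n ≤ X ∧
      |Real.exp (n : ℝ) - (round (Real.exp (n : ℝ)) : ℝ)| ≤ Real.exp (-(ε * n))} =
      (((Finset.Icc 1 X).filter (fun n : ℕ => dst n ≤ exp (-(ε * n))) : Finset ℕ) : Set ℕ) := by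
    ext n
    rw [Finset.mem_coe, Finset.mem_filter, Finset.mem_Icc, and_assoc]
    rfl
  rw [hset, Set.ncard_coe_finset]
  have hc := hcount X hX
  refine le_trans (le_of_eq ?_) (hc.trans ?_)
  · congr!
  have hXR : (1 : ℝ) ≤ X := by exact_mod_cast hX
  refine mul_le_mul_of_nonneg_left (rpow_le_rpow_of_exponent_le hXR ?_) hC.le
  have : ε ^ 2 / 72 ≤ κ := by
    have h6 : ((K : ℝ) + 1) ≤ 6 / ε := by
      have : 6 / ε = 2 * (3 / ε) := by ring
      linarith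
    have h7 : ε * ((K : ℝ) + 1) ≤ 6 := by
      rw [le_div_iff₀ hε] at h6
      linarith
    rw [hκdef, div_le_div_iff₀ (by norm_num) (by positivity)]
    have h8 : 0 ≤ ε * ((K : ℝ) + 1) := by positivity
    nlinarith
  linarith

end Pool.Agent.Results.MP_edbc81_nt.AlmostAll
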