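import Mathlib
import Pool.Agent.Helper16.WindowB

open Real Filter

namespace Pool.Agent.Results.MP_edbc81_nt.GapPrinciple

open Pool.Agent.Helper16

/-- For every `c > 6`, any two sufficiently large `n < n'` for which the distance to the nearest
integer is at most `e ^ (-c n)`, respectively `e ^ (-c n')`, differ by more than
`n ^ (1 - 9 / (c + 3))`. -/
theorem result : ∀ c : ℝ, 6 < c → ∃ n0 : ℕ, ∀ n n' : ℕ, n0 ≤ n → n < n' →
    |Real.exp (n : ℝ) - (round (Real.exp (n : ℝ)) : ℝ)| ≤ Real.exp (-(c * n)) →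
    |Real.exp (n' : ℝ) - (round (Real.exp (n' : ℝ)) : ℝ)| ≤ Real.exp (-(c * n')) →
    (n : ℝ) ^ (1 - 9 / (c + 3)) < (n' : ℝ) - n := by
  intro c hc
  set θ : ℝ := 9 / (c + 3) with hθ
  have hc3 : 0 < c + 3 := by linarith
  have hθ0 : 0 < θ := by positivity
  have hθ1 : θ < 1 := by
    rw [hθ, div_lt_one hc3]; linarith
  have hcθ : c = 9 / θ - 3 := by
    rw [hθ]; field_simp; ring
  set k : ℕ := ⌈3 / θ⌉₊ with hk
  have hkge : 3 / θ ≤ k := Nat.le_ceil _
  have hklt : (k : ℝ) < 3 / θ + 1 := Nat.ceil_lt_add_one (by positivity)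
  have h3θ : 3 < 3 / θ := by
    rw [lt_div_iff₀ hθ0]; linarith
  have hk1 : 1 ≤ k := by
    have : (1 : ℝ) ≤ k := by linarith
    exact_mod_cast this
  have hkθ : 3 ≤ k * θ := by
    rwa [div_le_iff₀ hθ0] at hkge
  have hlam : 0 < 3 / (2 * θ) := by positivity
  obtain ⟨n0, hn0⟩ := window_pair k hk1 (1 - θ) (3 / (2 * θ)) c hlam (by linarith) (by linarith)
    (by linarith) (by nlinarith)
    (by
      have e : (-(k : ℝ) + (k + 1) * (1 - θ)) * (3 / (2 * θ)) + k =
          (3 / θ - k - 3) / 2 := by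
        field_simp
        ring
      rw [e]
      linarith)
    (by
      have e : 2 * (1 + (1 - θ)) * (3 / (2 * θ)) + (k - 1 - c) = k + 2 * (3 / θ) - 4 - c := by
        field_simp
        ring
      rw [e, hcθ]
      have : 9 / θ = 3 * (3 / θ) := by ring
      linarith)
  refine ⟨n0, fun n n' hn hnn' h1 h2 => ?_⟩
  by_contra hcon
  rw [not_lt] at hcon
  have hle := hn0 n hn {n, n'} (by
    intro m hm
    rw [Finset.mem_insert, Finset.mem_singleton] at hm
    rcases hm with rfl | rfl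
    · refine ⟨h1, le_rfl, ?_⟩
      have : 0 ≤ (m : ℝ) ^ (1 - θ) := by positivity
      linarith
    · exact ⟨h2, hnn'.le, by linarith⟩)
  rw [Finset.card_pair hnn'.ne] at hle
  omega

end Pool.Agent.Results.MP_edbc81_nt.GapPrinciple
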