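import Mathlib
import Pool.Agent.Helper65.MT.St
import Pool.Agent.Helper28.MT.M_GM
import Pool.Agent.Helper16.MT.M_RM
import Pool.Agent.Helper57.MT.M_RN
import Pool.Agent.Helper19.MT.M_RC
import Pool.Agent.Helper72.MT.M_RA
import Pool.Agent.Helper94.MT.M_MB
import Pool.Agent.Helper42.MT.M_GE
import Pool.Agent.Helper86.MT.M_FC
import Pool.Agent.Helper4.MT.M_VW
import Pool.Agent.Helper77.MT.M_CF
import Pool.Agent.Helper77.MT.M_SL
import Pool.Agent.Helper79.MT.M_A1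
import Pool.Agent.Helper12.MT.M_FI

namespace Pool.Agent.Results.MP_edbc81_nt.MeanValue

open Pool.Agent.Helper65.MT

/-- For all large `X` and `log X ≤ H ≤ X` there is a set `E` of at most one integer, empty if
`H ≥ (log X) ^ 2`, such that the sum of `log (1 / ‖e ^ n‖)` over the `n` in `(X, X + H]` outside
`E` is at most `C H X (log log X) ^ 2 / log X`. -/
theorem result : ∃ C : ℝ, ∃ X0 : ℕ, ∀ X H : ℕ, X0 ≤ X → Real.log X ≤ H → H ≤ X →
    ∃ E : Finset ℕ, E.card ≤ 1 ∧ ((Real.log X) ^ 2 ≤ H → E = ∅) ∧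
      ∑ n ∈ Finset.Ioc X (X + H) \ E, Real.log (1 / |Real.exp n - round (Real.exp n)|) ≤
        C * H * X * (Real.log (Real.log X)) ^ 2 / Real.log X := by
  obtain ⟨C, X0, h⟩ : Final :=
    Helper12.MT.m_FI
      (Helper79.MT.m_A1 Helper77.MT.m_CF Helper4.MT.m_VW Helper77.MT.m_SL Helper86.MT.m_FC
        Helper42.MT.m_GE)
      (Helper94.MT.m_MB Helper72.MT.m_RA Helper28.MT.m_GM Helper16.MT.m_RM Helper57.MT.m_RN
        Helper19.MT.m_RC)
  refine ⟨C, X0, fun X H hX hH1 hH2 => ?_⟩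
  obtain ⟨h1, h2⟩ := h X H hX hH2
  by_cases hH : (Real.log X) ^ 2 ≤ H
  · refine ⟨∅, by simp, fun _ => rfl, ?_⟩
    rw [Finset.sdiff_empty]
    exact h2 hH
  · obtain ⟨m, hm⟩ := h1 hH1
    refine ⟨{m}, by simp, fun h => absurd h hH, ?_⟩
    rw [Finset.sdiff_singleton_eq_erase]
    exact hm

end Pool.Agent.Results.MP_edbc81_nt.MeanValue
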