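import Mathlib
import Pool.Agent.Helper16.WindowE

open Real Filter

namespace Pool.Agent.Results.MP_edbc81_nt.ShortIntervals

open Pool.Agent.Helper16

/-- For every `δ > 0` there are `C` and `X0` such that for all `X ≥ X0` and all `H` with
`C log X ≤ H ≤ X`, at most `δ H` of the integers `n` in `(X, X + H]` have distance of `e ^ n` to
the nearest integer at most `exp (-C n log log n / log n)`. -/
theorem result : ∀ δ : ℝ, 0 < δ → ∃ C : ℝ, 0 < C ∧ ∃ X0 : ℕ, ∀ X H : ℕ, X0 ≤ X →
    C * Real.log X ≤ H → H ≤ X →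
    (({n : ℕ | X < n ∧ n ≤ X + H ∧ |Real.exp (n : ℝ) - (round (Real.exp (n : ℝ)) : ℝ)| ≤
      Real.exp (-(C * n * Real.log (Real.log n) / Real.log n))}.ncard : ℕ) : ℝ) ≤ δ * H := by
  intro δ hδ
  set D : ℕ := ⌈2 / δ⌉₊ with hDdef
  have hD0 : 0 < D := Nat.ceil_pos.mpr (by positivity)
  have hDge : 2 / δ ≤ D := Nat.le_ceil _
  have hDR : (1 : ℝ) ≤ D := by exact_mod_cast hD0
  obtain ⟨n0, hn0⟩ := window_log D hD0
  refine ⟨120 * D + 24, by positivity, n0 + 3, fun X H hX hH1 hH2 => ?_⟩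
  have hX3 : (3 : ℝ) ≤ X := by
    have : 3 ≤ X := by omega
    exact_mod_cast this
  have hlogX : 1 ≤ log (X : ℝ) := by
    have h1 : exp 1 ≤ X := by
      have := exp_one_lt_d9
      linarith
    calc (1 : ℝ) = log (exp 1) := (log_exp 1).symm
      _ ≤ log X := log_le_log (exp_pos 1) h1
  classical
  have hset : {n : ℕ | X < n ∧ n ≤ X + H ∧
      |Real.exp (n : ℝ) - (round (Real.exp (n : ℝ)) : ℝ)| ≤
      Real.exp (-((120 * D + 24) * n * Real.log (Real.log n) / Real.log n))} =
      (((Finset.Ioc X (X + H)).filter (fun n : ℕ => dst n ≤ thr (120 * D + 24) n) :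
        Finset ℕ) : Set ℕ) := by
    ext n
    rw [Finset.mem_coe, Finset.mem_filter, Finset.mem_Ioc, and_assoc]
    rfl
  rw [hset, Set.ncard_coe_finset]
  set S := (Finset.Ioc X (X + H)).filter (fun n : ℕ => dst n ≤ thr (120 * D + 24) n) with hS
  set K1 : ℕ := ⌈log (X : ℝ)⌉₊ + 1 with hK1
  set L : ℕ := D * K1 with hL
  have hLpos : 0 < L := Nat.mul_pos hD0 (by omega)
  have hblock : S.card ≤ K1 * (S.image (fun n => (n - (X + 1)) / L)).card := by
    refine Finset.card_le_mul_card_image _ _ fun q hq => ?_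
    set t : ℕ := X + 1 + q * L with ht
    have hqL : q * L ≤ H := by
      rw [Finset.mem_image] at hq
      obtain ⟨n, hn, rfl⟩ := hq
      rw [hS, Finset.mem_filter, Finset.mem_Ioc] at hn
      have h1 := Nat.div_mul_le_self (n - (X + 1)) L
      omega
    have htX : t ≤ 2 * X + 1 := by omega
    have hlogt1 : log (X : ℝ) ≤ log (t : ℝ) := by
      refine log_le_log (by linarith) ?_
      have : X ≤ t := by omega
      exact_mod_cast this
    have hlogt2 : log (t : ℝ) ≤ log (X : ℝ) + 1 := by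
      have h1 : (t : ℝ) ≤ exp 1 * X := by
        have h2 : (t : ℝ) ≤ 2 * X + 1 := by exact_mod_cast htX
        have h3 := exp_one_gt_d9
        nlinarith
      have ht0 : (0 : ℝ) < t := by
        have : 0 < t := by omega
        exact_mod_cast this
      calc log (t : ℝ) ≤ log (exp 1 * X) := log_le_log ht0 h1
        _ = log (X : ℝ) + 1 := by
          rw [log_mul (exp_pos 1).ne' (by linarith), log_exp]; ring
    have hc1 : ⌈log (t : ℝ)⌉₊ ≤ K1 := by
      calc ⌈log (t : ℝ)⌉₊ ≤ ⌈log (X : ℝ) + 1⌉₊ := Nat.ceil_le_ceil hlogt2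
        _ = K1 := by rw [Nat.ceil_add_one (by linarith)]
    have hc2 : K1 ≤ ⌈log (t : ℝ)⌉₊ + 1 := Nat.add_le_add_right (Nat.ceil_le_ceil hlogt1) 1
    refine le_trans (hn0 t (by omega) _ fun n hn => ?_) hc1
    rw [Finset.mem_filter, hS, Finset.mem_filter, Finset.mem_Ioc] at hn
    obtain ⟨⟨⟨hn1, hn2⟩, hP⟩, hq'⟩ := hn
    refine ⟨hP, ?_, ?_⟩
    · have h1 : q * L ≤ n - (X + 1) := by rw [← hq']; exact Nat.div_mul_le_self _ _
      omega
    · have h2 : n - (X + 1) < q * L + L := by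
        rw [← hq']
        exact Nat.lt_div_mul_add hLpos
      have h3 : L ≤ D * (⌈log (t : ℝ)⌉₊ + 1) := Nat.mul_le_mul_left D hc2
      omega
  have himg : (S.image (fun n => (n - (X + 1)) / L)).card ≤ H / L + 1 := by
    have : S.image (fun n => (n - (X + 1)) / L) ⊆ Finset.range (H / L + 1) := by
      intro q hq
      rw [Finset.mem_image] at hq
      obtain ⟨n, hn, rfl⟩ := hq
      rw [hS, Finset.mem_filter, Finset.mem_Ioc] at hn
      rw [Finset.mem_range, Nat.lt_succ_iff]
      exact Nat.div_le_div_right (by omega)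
    exact (Finset.card_le_card this).trans (by rw [Finset.card_range])
  have h5 : (S.card : ℝ) ≤ K1 * ((H : ℝ) / L + 1) := by
    calc (S.card : ℝ) ≤ ((K1 * (H / L + 1) : ℕ) : ℝ) := by
          exact_mod_cast hblock.trans (Nat.mul_le_mul_left K1 himg)
      _ = K1 * (((H / L : ℕ) : ℝ) + 1) := by push_cast; ring
      _ ≤ K1 * ((H : ℝ) / L + 1) := by
          gcongr
          exact Nat.cast_div_le
  have hK1R : (K1 : ℝ) ≤ 3 * log X := by
    have h1 := Nat.ceil_lt_add_one (show 0 ≤ log (X : ℝ) by linarith)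
    have h2 : (K1 : ℝ) = ⌈log (X : ℝ)⌉₊ + 1 := by rw [hK1]; push_cast; ring
    rw [h2]; linarith
  have hK1pos : (0 : ℝ) < K1 := by
    have : 0 < K1 := by omega
    exact_mod_cast this
  have hDpos : (0 : ℝ) < D := by linarith
  have h6 : (K1 : ℝ) * ((H : ℝ) / L + 1) = H / D + K1 := by
    rw [hL]; push_cast; field_simp
  have hHR : (0 : ℝ) ≤ H := by positivity
  have h2δ : 2 ≤ D * δ := by rwa [div_le_iff₀ hδ] at hDge
  have h7 : (H : ℝ) / D ≤ δ / 2 * H := by
    rw [div_le_iff₀ hDpos]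
    nlinarith
  have h8 : (K1 : ℝ) ≤ δ / 2 * H := by
    have h9 : δ / 2 * ((120 * D + 24) * log X) ≤ δ / 2 * H :=
      mul_le_mul_of_nonneg_left hH1 (by positivity)
    have h10 : 3 * log (X : ℝ) ≤ δ / 2 * ((120 * D + 24) * log X) := by
      have : 3 ≤ δ / 2 * (120 * D + 24) := by nlinarith
      calc 3 * log (X : ℝ) ≤ (δ / 2 * (120 * D + 24)) * log X :=
            mul_le_mul_of_nonneg_right this (by linarith)
        _ = _ := by ring
    linarith
  linarith

end Pool.Agent.Results.MP_edbc81_nt.ShortIntervals
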